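import Pool.Agent.H60.DTd

set_option autoImplicit false

namespace Pool.Agent.Results.MP_a68a03_ag.Yes

open MvPolynomial Pool.Agent.H60.DT

/-- The dim-type of `V(F₁,…,F_r) ⊆ ℙ^m` over `K`.  The irreducible components over `K` are the
minimal primes `P` of the ideal `(F₁,…,F_r)` of `K[x₀,…,x_m]` other than the irrelevant ideal; the
component of `P` has codimension `j` in `ℙ^m` iff its affine cone has dimension `m + 1 - j`.
The entry at `i : Fin m` counts the components of codimension `j = i + 1`. -/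
noncomputable def dimType {K : Type} [Field K] {m r : ℕ}
    (F : Fin r → MvPolynomial (Fin (m + 1)) K) : Fin m → ℕ := fun i =>
  Set.ncard {P ∈ (Ideal.span (Set.range F)).minimalPrimes |
    ringKrullDim (MvPolynomial (Fin (m + 1)) K ⧸ P) = (m - i : ℕ)}

/-- `ν` is the `r`-th element of `Λ(d,m)` listed in descending lexicographic order: it has sum `d`
and exactly `r` elements of `Λ(d,m)` are lexicographically `≥ ν`. -/
def IsRth {m : ℕ} (d r : ℕ) (ν : Fin (m + 1) → ℕ) : Prop :=
  ∑ l, ν l = d ∧ Set.ncard {β : Fin (m + 1) → ℕ | ∑ l, β l = d ∧ toLex ν ≤ toLex β} = r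

theorem ncard_eq {m d : ℕ} (ν : Fin (m + 1) → ℕ) :
    Set.ncard {β : Fin (m + 1) → ℕ | ∑ l, β l = d ∧ toLex ν ≤ toLex β} = cnt (m + 1) d ν := by
  unfold cnt
  rw [← Set.ncard_coe_finset]
  congr 1
  ext β
  simp [Finset.Nat.mem_antidiagonalTuple]

theorem cnt_lt {m d : ℕ} {ν α : Fin (m + 1) → ℕ} (hν : ∑ l, ν l = d) (h : toLex ν < toLex α) :
    cnt (m + 1) d α < cnt (m + 1) d ν := by
  unfold cnt
  refine Finset.card_lt_card ⟨fun β hβ => ?_, fun hc => ?_⟩
  · simp only [Finset.mem_filter] at hβ ⊢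
    exact ⟨hβ.1, h.le.trans hβ.2⟩
  · have := hc (x := ν) (by simp [Finset.Nat.mem_antidiagonalTuple, hν])
    simp only [Finset.mem_filter] at this
    exact absurd h (not_lt.2 this.2)

theorem card_lam (m d : ℕ) : (Finset.Nat.antidiagonalTuple (m + 1) d).card = (m + d).choose d := by
  have := Finset.card_finsuppAntidiag_nat_eq_choose (s := (Finset.univ : Finset (Fin (m + 1)))) d
  rw [Finset.finsuppAntidiag, Finset.card_map, Finset.card_attach,
    Finset.piAntidiag_univ_fin_eq_antidiagonalTuple] at this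
  rw [this]
  congr 1
  simp only [Finset.card_univ, Fintype.card_fin]
  omega

theorem cnt_inj {m d : ℕ} {ν ν' : Fin (m + 1) → ℕ} (hν : ∑ l, ν l = d) (hν' : ∑ l, ν' l = d)
    (h : cnt (m + 1) d ν = cnt (m + 1) d ν') : ν = ν' := by
  rcases lt_trichotomy (toLex ν) (toLex ν') with h1 | h1 | h1
  · have := cnt_lt hν h1; omega
  · exact toLex_inj.1 h1
  · have := cnt_lt hν' h1; omega

theorem result (K : Type) [Field K] [Fintype K] (m d r : ℕ) (hd : d < Fintype.card K)
    (hr : 1 ≤ r) (hr' : r ≤ (m + d).choose d) :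
    (∃! ν : Fin (m + 1) → ℕ, IsRth d r ν) ∧
    ∀ ν : Fin (m + 1) → ℕ, IsRth d r ν →
      IsGreatest {α : Lex (Fin m → ℕ) | ∃ F : Fin r → MvPolynomial (Fin (m + 1)) K,
          LinearIndependent K F ∧ (∀ j, (F j).IsHomogeneous d) ∧ α = toLex (dimType F)}
        (toLex fun i : Fin m => ν i.castSucc) := by
  classical
  constructor
  · have hs : Set.SurjOn (cnt (m + 1) d) (Finset.Nat.antidiagonalTuple (m + 1) d)
        (Finset.Icc 1 ((m + d).choose d)) := by
      refine Finset.surjOn_of_injOn_of_card_le _ ?_ ?_ ?_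
      · intro ν hν
        simp only [Finset.coe_Icc, Set.mem_Icc]
        refine ⟨Finset.card_pos.2 ⟨ν, ?_⟩, ?_⟩
        · simp only [Finset.mem_filter]
          exact ⟨hν, le_rfl⟩
        · rw [← card_lam]
          exact Finset.card_filter_le _ _
      · intro ν hν ν' hν' h
        exact cnt_inj (Finset.Nat.mem_antidiagonalTuple.1 hν)
          (Finset.Nat.mem_antidiagonalTuple.1 hν') h
      · simp [card_lam]
    obtain ⟨ν, hν, h⟩ := hs (show r ∈ (Finset.Icc 1 ((m + d).choose d) : Set ℕ) by simp [hr, hr'])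
    have hν' := Finset.Nat.mem_antidiagonalTuple.1 hν
    refine ⟨ν, ⟨hν', by rw [ncard_eq, h]⟩, fun ν' h' => cnt_inj h'.1 hν' ?_⟩
    rw [h, ← ncard_eq, h'.2]
  · rintro ν ⟨hν, hrν⟩
    constructor
    · obtain ⟨e⟩ : Nonempty (Fin (d + 1) ↪ K) :=
        Function.Embedding.nonempty_of_card_le (by simpa using hd)
      let a : ℕ → K := fun c => if h : c < d + 1 then e ⟨c, h⟩ else 0
      have ha : Set.InjOn a (Set.Iic d) := by
        intro x hx y hy h
        have hx' : x < d + 1 := Nat.lt_succ_of_le hx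
        have hy' : y < d + 1 := Nat.lt_succ_of_le hy
        simp only [a, dif_pos hx', dif_pos hy'] at h
        simpa using e.injective h
      set T := (Finset.Nat.antidiagonalTuple (m + 1) d).filter (fun β => toLex ν ≤ toLex β)
        with hT
      have hmem : ∀ β, β ∈ T ↔ ∑ l, β l = d ∧ toLex ν ≤ toLex β := by
        intro β; simp [hT, Finset.Nat.mem_antidiagonalTuple]
      have hc : T.card = r := by
        rw [← hrν, ← Set.ncard_coe_finset]
        congr 1
        ext β
        exact hmem β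
      let E := (T.equivFinOfCardEq hc).symm
      refine ⟨fun j => fm a (E j).1, (fm_linInd a ha T fun β hβ => ((hmem β).1 hβ).1).comp E
        E.injective, fun j => ?_, ?_⟩
      · have := fm_hom a (E j).1
        rwa [((hmem _).1 (E j).2).1] at this
      · congr 1
        funext i
        refine (lower a ha hν _ ?_ i).symm
        congr 1
        ext f
        constructor
        · rintro ⟨j, rfl⟩
          exact ⟨_, (hmem _).1 (E j).2, rfl⟩
        · rintro ⟨β, hβ, rfl⟩
          exact ⟨E.symm ⟨β, (hmem β).2 hβ⟩, by simp⟩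
    · rintro _ ⟨F, hF, hFd, rfl⟩
      by_contra hlt
      rw [not_le] at hlt
      obtain ⟨i, hi, hi'⟩ := hlt
      have h1 := upper F hF hFd
      have h2 : toLex ν < toLex (Fin.snoc (α := fun _ => ℕ) (dimType F) 0) := by
        refine ⟨i.castSucc, fun j hj => ?_, ?_⟩
        · obtain ⟨j, rfl⟩ := Fin.exists_castSucc_eq.2 (hj.trans (Fin.castSucc_lt_last i)).ne
          simp only [Pi.toLex_apply, Fin.snoc_castSucc]
          exact hi j (by simpa using hj)
        · simp only [Pi.toLex_apply, Fin.snoc_castSucc]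
          exact hi'
      have h3 := cnt_lt hν h2
      rw [ncard_eq] at hrν
      exact absurd (h1.trans_lt h3) (by omega)

end Pool.Agent.Results.MP_a68a03_ag.Yes
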